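import Mathlib
import Pool.Agent.H68R2.BP.Props2

/-! `T_map`: the operator `R` maps `N Ω` into `M Ω`. -/

open scoped ComplexOrder InnerProductSpace ComplexConjugate Topology
open Finset Filter

noncomputable section

namespace H68R2.BP

open H759R2.Kad H744R2.KZ

namespace T_mapaux

set_option linter.unusedSectionVars false

variable {H : Type} [NormedAddCommGroup H] [InnerProductSpace ℂ H] [CompleteSpace H]
  {M N : Set (H →L[ℂ] H)} {Ω : H}

theorem Cm_sub {a b : H →L[ℂ] H} (ha : a ∈ Cm N) (hb : b ∈ Cm N) : a - b ∈ Cm N := by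
  intro c hc
  rw [sub_mul, mul_sub, ha c hc, hb c hc]

theorem Cm_add {a b : H →L[ℂ] H} (ha : a ∈ Cm N) (hb : b ∈ Cm N) : a + b ∈ Cm N := by
  intro c hc
  rw [add_mul, mul_add, ha c hc, hb c hc]

theorem Cm_smul {a : H →L[ℂ] H} (ha : a ∈ Cm N) (t : ℂ) : t • a ∈ Cm N := by
  intro c hc
  rw [smul_mul_assoc, mul_smul_comm, ha c hc]

theorem Cm_one : (1 : H →L[ℂ] H) ∈ Cm N := by
  intro c _
  rw [one_mul, mul_one]

theorem Cm_star (hM : ∀ a ∈ M, star a ∈ M) {b : H →L[ℂ] H} (hb : b ∈ Cm M) : star b ∈ Cm M := by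
  intro a ha
  have h := congrArg star (hb _ (hM a ha))
  rw [star_mul, star_mul, star_star] at h
  exact h.symm

theorem M_sub (h : CS M N Ω) {a b : H →L[ℂ] H} (ha : a ∈ M) (hb : b ∈ M) : a - b ∈ M := by
  rw [h.cM] at ha hb ⊢
  exact Cm_sub ha hb

theorem M_add (h : CS M N Ω) {a b : H →L[ℂ] H} (ha : a ∈ M) (hb : b ∈ M) : a + b ∈ M := by
  rw [h.cM] at ha hb ⊢
  exact Cm_add ha hb

theorem M_smul (h : CS M N Ω) {a : H →L[ℂ] H} (ha : a ∈ M) (t : ℂ) : t • a ∈ M := by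
  rw [h.cM] at ha ⊢
  exact Cm_smul ha t

theorem N_sub (h : CS M N Ω) {a b : H →L[ℂ] H} (ha : a ∈ N) (hb : b ∈ N) : a - b ∈ N := by
  rw [h.cN] at ha hb ⊢
  exact Cm_sub ha hb

theorem N_add (h : CS M N Ω) {a b : H →L[ℂ] H} (ha : a ∈ N) (hb : b ∈ N) : a + b ∈ N := by
  rw [h.cN] at ha hb ⊢
  exact Cm_add ha hb

theorem N_smul (h : CS M N Ω) {a : H →L[ℂ] H} (ha : a ∈ N) (t : ℂ) : t • a ∈ N := by
  rw [h.cN] at ha ⊢
  exact Cm_smul ha t

theorem N_one (h : CS M N Ω) : (1 : H →L[ℂ] H) ∈ N := by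
  rw [h.cN]
  exact Cm_one

theorem N_star (h : CS M N Ω) {b : H →L[ℂ] H} (hb : b ∈ N) : star b ∈ N := by
  rw [h.cN] at hb ⊢
  exact Cm_star h.stM hb

/-- `KS M Ω` is closed under differences. -/
theorem KS_sub (h : CS M N Ω) {x y : H} (hx : x ∈ KS M Ω) (hy : y ∈ KS M Ω) :
    x - y ∈ KS M Ω := by
  unfold KS at hx hy ⊢
  refine map_mem_closure₂ continuous_sub hx hy ?_
  rintro _ ⟨a, ha, ha', rfl⟩ _ ⟨b, hb, hb', rfl⟩
  exact ⟨a - b, M_sub h ha hb, by rw [star_sub, ha', hb'], by simp⟩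

theorem mem_KS {a : H →L[ℂ] H} (ha : a ∈ M) (ha' : star a = a) : a Ω ∈ KS M Ω :=
  subset_closure ⟨a, ha, ha', rfl⟩

theorem sa_inner {a : H →L[ℂ] H} (ha : star a = a) (x y : H) : ⟪a x, y⟫_ℂ = ⟪x, a y⟫_ℂ := by
  conv_rhs => rw [← ha]
  rw [ContinuousLinearMap.star_eq_adjoint, ContinuousLinearMap.adjoint_inner_right]

/-- `R` maps positive contractions of `N`, applied to `Ω`, into `M_sa Ω`. -/
theorem pos_case (h1 : T_rn) (h : CS M N Ω) {R T : H →L[ℂ] H} {J : H → H}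
    (hT : TOp (KS M Ω) (KS N Ω) R T J) {a' : H →L[ℂ] H} (ha : a' ∈ N) (hsa : star a' = a')
    (hp : ∀ x, 0 ≤ (⟪a' x, x⟫_ℂ).re) (hl : ∀ x, (⟪a' x, x⟫_ℂ).re ≤ ‖x‖ ^ 2) :
    ∃ y ∈ M, star y = y ∧ y Ω = R (a' Ω) := by
  obtain ⟨x, hx, hxs, hxy⟩ := h1 H M N Ω h a' ha hsa hp hl 1 (by simp)
  refine ⟨(2 : ℂ) • x, M_smul h hx 2, ?_, ?_⟩
  · rw [star_smul, hxs]
    simp
  have h2 : star ((2 : ℂ) • x) = (2 : ℂ) • x := by
    rw [star_smul, hxs]
    simp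
  -- real inner products with `KS M Ω`
  have h3 : ∀ k ∈ KS M Ω, (⟪k, a' Ω - ((2 : ℂ) • x) Ω⟫_ℂ).re = 0 := by
    intro k hk
    have hcl : IsClosed {k : H | (⟪k, a' Ω - ((2 : ℂ) • x) Ω⟫_ℂ).re = 0} := by
      apply isClosed_eq _ continuous_const
      exact Complex.continuous_re.comp (continuous_id.inner continuous_const)
    refine closure_minimal ?_ hcl hk
    rintro _ ⟨y, hy, hys, rfl⟩
    have e := hxy y hy
    rw [map_one, one_mul, one_mul, ← sa_inner hys Ω (a' Ω), ← sa_inner hxs Ω (y Ω),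
      ← sa_inner hys Ω (x Ω)] at e
    have e2 : (⟪y Ω, a' Ω⟫_ℂ).re = 2 * (⟪y Ω, x Ω⟫_ℂ).re := by
      rw [e, Complex.add_re, ← inner_conj_symm (x Ω) (y Ω), Complex.conj_re]
      ring
    simp only [Set.mem_ofPred_eq, smul_apply, inner_sub_right,
      inner_smul_right, Complex.sub_re]
    rw [e2]
    simp
  obtain ⟨h4, h5⟩ := hT.pr' _ (mem_KS ha hsa)
  have hd : R (a' Ω) - ((2 : ℂ) • x) Ω ∈ KS M Ω := KS_sub h h4 (mem_KS (M_smul h hx 2) h2)
  have h6 := h3 _ hd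
  have h7 := h5 _ hd
  have h8 : (⟪R (a' Ω) - ((2 : ℂ) • x) Ω, R (a' Ω) - ((2 : ℂ) • x) Ω⟫_ℂ).re = 0 := by
    have e : R (a' Ω) - ((2 : ℂ) • x) Ω =
        (a' Ω - ((2 : ℂ) • x) Ω) - (a' Ω - R (a' Ω)) := by abel
    conv_lhs => rw [e]
    rw [inner_sub_right, Complex.sub_re, ← e, h6, h7, sub_zero]
  have h9 : R (a' Ω) - ((2 : ℂ) • x) Ω = 0 := by
    have h10 : (⟪R (a' Ω) - ((2 : ℂ) • x) Ω, R (a' Ω) - ((2 : ℂ) • x) Ω⟫_ℂ).re =
        ‖R (a' Ω) - ((2 : ℂ) • x) Ω‖ ^ 2 := inner_self_eq_norm_sq (𝕜 := ℂ) _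
    rw [h8] at h10
    exact norm_eq_zero.mp (pow_eq_zero_iff (two_ne_zero)|>.mp h10.symm)
  exact (sub_eq_zero.mp h9).symm

/-- `R` maps `N_sa Ω` into `M_sa Ω`. -/
theorem sa_case (h1 : T_rn) (h : CS M N Ω) {R T : H →L[ℂ] H} {J : H → H}
    (hT : TOp (KS M Ω) (KS N Ω) R T J) {b : H →L[ℂ] H} (hb : b ∈ N) (hsa : star b = b) :
    ∃ y ∈ M, star y = y ∧ y Ω = R (b Ω) := by
  obtain ⟨K, hK⟩ : ∃ K : ℝ, K = ‖b‖ + 1 := ⟨_, rfl⟩
  have hK0 : 0 < K := by rw [hK]; positivity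
  have hbK : ‖b‖ ≤ K := by rw [hK]; linarith
  -- the unit
  obtain ⟨y₀, hy₀, hs₀, e₀⟩ := pos_case h1 h hT (N_one h) (star_one _)
    (fun x => by
      rw [one_apply_eq_self]
      exact inner_self_nonneg (𝕜 := ℂ))
    (fun x => by
      rw [one_apply_eq_self, inner_self_eq_norm_sq_to_K]
      norm_cast)
  have hre : ∀ x, |(⟪b x, x⟫_ℂ).re| ≤ K * ‖x‖ ^ 2 := by
    intro x
    calc |(⟪b x, x⟫_ℂ).re| ≤ ‖⟪b x, x⟫_ℂ‖ := Complex.abs_re_le_norm _
      _ ≤ ‖b x‖ * ‖x‖ := norm_inner_le_norm _ _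
      _ ≤ (‖b‖ * ‖x‖) * ‖x‖ := mul_le_mul_of_nonneg_right (b.le_opNorm x) (norm_nonneg _)
      _ ≤ (K * ‖x‖) * ‖x‖ := by gcongr
      _ = K * ‖x‖ ^ 2 := by ring
  have hval : ∀ x, (⟪(((1 / 2 : ℝ) : ℂ) • (1 : H →L[ℂ] H) + ((1 / (2 * K) : ℝ) : ℂ) • b) x,
      x⟫_ℂ).re = 1 / 2 * ‖x‖ ^ 2 + 1 / (2 * K) * (⟪b x, x⟫_ℂ).re := by
    intro x
    rw [add_apply, smul_apply,
      smul_apply, one_apply_eq_self, inner_add_left,
      inner_smul_left, inner_smul_left, Complex.add_re, Complex.conj_ofReal, Complex.conj_ofReal,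
      Complex.re_ofReal_mul, Complex.re_ofReal_mul, inner_self_eq_norm_sq_to_K]
    norm_cast
  obtain ⟨y₁, hy₁, hs₁, e₁⟩ := pos_case h1 h hT
    (a' := ((1 / 2 : ℝ) : ℂ) • (1 : H →L[ℂ] H) + ((1 / (2 * K) : ℝ) : ℂ) • b)
    (N_add h (N_smul h (N_one h) _) (N_smul h hb _))
    (by
      rw [star_add, star_smul, star_smul, star_one, hsa]
      simp only [RCLike.star_def, Complex.conj_ofReal])
    (fun x => by
      rw [hval]
      have := (abs_le.mp (hre x)).1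
      have h2 : 1 / (2 * K) * (-(K * ‖x‖ ^ 2)) ≤ 1 / (2 * K) * (⟪b x, x⟫_ℂ).re :=
        mul_le_mul_of_nonneg_left this (by positivity)
      have h3 : 1 / (2 * K) * (-(K * ‖x‖ ^ 2)) = - (1 / 2 * ‖x‖ ^ 2) := by
        field_simp
      linarith)
    (fun x => by
      rw [hval]
      have := (abs_le.mp (hre x)).2
      have h2 : 1 / (2 * K) * (⟪b x, x⟫_ℂ).re ≤ 1 / (2 * K) * (K * ‖x‖ ^ 2) :=
        mul_le_mul_of_nonneg_left this (by positivity)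
      have h3 : 1 / (2 * K) * (K * ‖x‖ ^ 2) = 1 / 2 * ‖x‖ ^ 2 := by
        field_simp
      linarith)
  refine ⟨((2 * K : ℝ) : ℂ) • y₁ - ((K : ℝ) : ℂ) • y₀,
    M_sub h (M_smul h hy₁ _) (M_smul h hy₀ _), ?_, ?_⟩
  · rw [star_sub, star_smul, star_smul, hs₀, hs₁]
    simp only [RCLike.star_def, Complex.conj_ofReal]
  · have hKC : ((K : ℝ) : ℂ) ≠ 0 := by
      exact_mod_cast hK0.ne'
    rw [sub_apply, smul_apply,
      smul_apply, e₀, e₁]
    rw [← map_smul R, ← map_smul R, ← map_sub R]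
    refine congrArg R ?_
    rw [add_apply, smul_apply,
      smul_apply, one_apply_eq_self, smul_add, smul_smul,
      smul_smul]
    have e1 : ((2 * K : ℝ) : ℂ) * ((1 / 2 : ℝ) : ℂ) = ((K : ℝ) : ℂ) := by
      push_cast
      ring
    have e2 : ((2 * K : ℝ) : ℂ) * ((1 / (2 * K) : ℝ) : ℂ) = 1 := by
      push_cast
      field_simp
    rw [e1, e2, one_smul]
    abel

end T_mapaux

theorem prove_T_map (h1 : T_rn) : T_map := by
  intro H _ _ _ M N Ω h R T J hT b hb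
  have hbs := T_mapaux.N_star h hb
  obtain ⟨y₁, hy₁, hs₁, e₁⟩ := T_mapaux.sa_case h1 h hT (b := (1 / 2 : ℂ) • (b + star b))
    (T_mapaux.N_smul h (T_mapaux.N_add h hb hbs) _)
    (by
      rw [star_smul, star_add, star_star, add_comm (star b) b]
      simp)
  obtain ⟨y₂, hy₂, hs₂, e₂⟩ := T_mapaux.sa_case h1 h hT
    (b := (-(Complex.I / 2) : ℂ) • (b - star b))
    (T_mapaux.N_smul h (T_mapaux.N_sub h hb hbs) _)
    (by
      rw [star_smul, star_sub, star_star]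
      have : star (-(Complex.I / 2) : ℂ) = Complex.I / 2 := by
        simp [RCLike.star_def, neg_div]
      rw [this, ← neg_sub b (star b), smul_neg, neg_smul])
  refine ⟨y₁ + Complex.I • y₂, T_mapaux.M_add h hy₁ (T_mapaux.M_smul h hy₂ _), ?_, ?_⟩
  · rw [add_apply, smul_apply, e₁, e₂, ← map_smul,
      ← map_add]
    congr 1
    simp only [smul_apply, add_apply,
      sub_apply, smul_smul]
    have : Complex.I * -(Complex.I / 2) = 1 / 2 := by
      have := Complex.I_mul_I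
      linear_combination (-1 / 2 : ℂ) * this
    rw [this, ← smul_add]
    have e : b Ω + (star b) Ω + (b Ω - (star b) Ω) = (2 : ℂ) • b Ω := by
      rw [two_smul]; abel
    rw [e, smul_smul]
    norm_num
  · rw [star_add, star_smul, hs₁, hs₂]
    have hI : star Complex.I = -Complex.I := by simp
    rw [hI, add_apply, smul_apply, e₁, e₂, ← map_smul,
      ← map_add]
    congr 1
    simp only [smul_apply, add_apply,
      sub_apply, smul_smul]
    have : -Complex.I * -(Complex.I / 2) = -(1 / 2) := by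
      have := Complex.I_mul_I
      linear_combination (1 / 2 : ℂ) * this
    rw [this, neg_smul, ← sub_eq_add_neg, ← smul_sub]
    have e : b Ω + (star b) Ω - (b Ω - (star b) Ω) = (2 : ℂ) • (star b) Ω := by
      rw [two_smul]; abel
    rw [e, smul_smul]
    norm_num

end H68R2.BP
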